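import Pool.Agent.L7h9.SU.Asy2
set_option autoImplicit false

/-!
The asymptotic behaviour of the regulator integrals of `{Z_0, ..., Z_n}` on tori of dimension `n`
when the logarithms of the `Z_l` are large and the logarithmic derivatives are close to those of
given functions.
-/

namespace Pool.Agent.L7h9.CP

open MeasureTheory Set

open Pool.Agent.TH826.MK

open Pool.Agent.N65.TL

open Pool.Agent.L7h9.SU

variable {n k : ℕ}

/-- the determinant with the column `d` -/
theorem det_col (d : Fin (n + 1) → ℂ) (r : Fin (n + 1) → Fin n → ℂ) (x : ℂ) :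
    x * (Matrix.of fun l => (Fin.cons (d l) (r l) : Fin (n + 1) → ℂ)).det =
      ∑ l, d l * (Matrix.of (Function.update (fun l' => (Fin.cons (d l') (r l') :
        Fin (n + 1) → ℂ)) l (Fin.cons x fun _ => 0))).det := by
  rw [Matrix.det_succ_column_zero, Finset.mul_sum]
  refine Finset.sum_congr rfl fun l _ => ?_
  rw [Matrix.det_succ_row _ l, Fin.sum_univ_succ, Finset.sum_eq_zero (s := Finset.univ)
    (f := fun i : Fin n => (-1 : ℂ) ^ ((l : ℕ) + (i.succ : ℕ)) * (Matrix.of (Function.update
      (fun l' => (Fin.cons (d l') (r l') : Fin (n + 1) → ℂ)) l (Fin.cons x fun _ => 0))) l i.succ *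
      ((Matrix.of (Function.update (fun l' => (Fin.cons (d l') (r l') : Fin (n + 1) → ℂ)) l
        (Fin.cons x fun _ => 0))).submatrix l.succAbove i.succ.succAbove).det)
    (fun i _ => by
      rw [Matrix.of_apply, Function.update_self, Fin.cons_succ, mul_zero, zero_mul]), add_zero]
  rw [Matrix.of_apply, Matrix.of_apply, Function.update_self, Fin.cons_zero, Fin.cons_zero]
  have e : (Matrix.of fun l => (Fin.cons (d l) (r l) : Fin (n + 1) → ℂ)).submatrix
      l.succAbove Fin.succ = (Matrix.of (Function.update (fun l' => (Fin.cons (d l') (r l') :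
        Fin (n + 1) → ℂ)) l (Fin.cons x fun _ => 0))).submatrix l.succAbove
          (Fin.succAbove 0) := by
    ext i j
    rw [Matrix.submatrix_apply, Matrix.submatrix_apply, Matrix.of_apply, Matrix.of_apply,
      Function.update_of_ne (Fin.succAbove_ne l i), Fin.succAbove_zero]
  rw [e, Fin.val_zero, add_zero]
  ring

theorem grow_close {d : ℕ} {g g' : (Fin d → ℝ) → ℂ} {y y' : Fin (d + 1) → ℝ}
    (hy : y ∈ Icc (0 : Fin (d + 1) → ℝ) 1) (h0 : y' 0 = y 0) (j : Fin d) (c : ℝ) {δ : ℝ}
    (h : ‖lw g j (tl d y) - c * lw g' j (tl d y')‖ ≤ δ) :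
    ‖grow g y j.succ - c * grow g' y' j.succ‖ ≤ 2 * δ := by
  rw [grow_succ, grow_succ, h0]
  have e : ((y 0 * (lw g j (tl d y)).re : ℝ) : ℂ) + Complex.I * ((lw g j (tl d y)).im : ℝ) -
      c * (((y 0 * (lw g' j (tl d y')).re : ℝ) : ℂ) +
        Complex.I * ((lw g' j (tl d y')).im : ℝ)) =
      ((y 0 * (lw g j (tl d y) - c * lw g' j (tl d y')).re : ℝ) : ℂ) +
        Complex.I * ((lw g j (tl d y) - c * lw g' j (tl d y')).im : ℝ) := by
    rw [Complex.sub_re, Complex.sub_im, Complex.re_ofReal_mul, Complex.im_ofReal_mul]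
    push_cast
    ring
  rw [e]
  have hy0 : 0 ≤ y 0 := hy.1 0
  have hy1 : y 0 ≤ 1 := hy.2 0
  refine (norm_add_le _ _).trans ?_
  rw [norm_mul, Complex.norm_I, one_mul, Complex.norm_real, Complex.norm_real,
    Real.norm_eq_abs, Real.norm_eq_abs, abs_mul, abs_of_nonneg hy0]
  have h1 := Complex.abs_re_le_norm (lw g j (tl d y) - c * lw g' j (tl d y'))
  have h2 := Complex.abs_im_le_norm (lw g j (tl d y) - c * lw g' j (tl d y'))
  have h3 : y 0 * |(lw g j (tl d y) - c * lw g' j (tl d y')).re| ≤
      1 * |(lw g j (tl d y) - c * lw g' j (tl d y')).re| :=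
    mul_le_mul_of_nonneg_right hy1 (abs_nonneg _)
  linarith

theorem asyC (hk : 0 < k) {H : Fin (n + 1) → (Fin n → ℝ) → ℂ} (hH : ∀ l, Good (H l))
    (hP : ∀ l, Per (H l)) (c d : Fin (n + 1) → ℝ) {ε : ℝ} (hε : 0 < ε) :
    ∃ δ : ℝ, 0 < δ ∧ ∀ (Z : Fin (n + 1) → (Fin n → ℝ) → ℂ) (t : ℝ), 0 < t →
      (∀ j, Good (Z j)) →
      (∀ j θ, |Real.log ‖Z j θ‖ / t - c j * d j| ≤ δ) →
      (∀ j i θ, ‖lw (Z j) i θ - c j * lw (H j) i ((k : ℝ) • θ)‖ ≤ δ) →
      |pairing Z / t - (∏ j, c j) * (∑ l, d l *
        pairing (Function.update H l fun _ => (2 : ℂ))) / Real.log 2| ≤ ε := by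
  classical
  have hlog2 : 0 < Real.log 2 := Real.log_pos one_lt_two
  choose Cu hCu0 hCul hCuw using fun i => Good.bdd (hH i) (hP i)
  set Cs : ℝ := ∑ i, Cu i with hCs
  have hCs0 : 0 ≤ Cs := Finset.sum_nonneg fun i _ => hCu0 i
  have hCule : ∀ i, Cu i ≤ Cs := fun i =>
    Finset.single_le_sum (f := Cu) (fun i _ => hCu0 i) (Finset.mem_univ i)
  set cs : ℝ := ∑ i, |c i| with hcs
  have hcs0 : 0 ≤ cs := Finset.sum_nonneg fun i _ => abs_nonneg _
  have hcsle : ∀ i, |c i| ≤ cs := fun i =>
    Finset.single_le_sum (f := fun i => |c i|) (fun i _ => abs_nonneg _) (Finset.mem_univ i)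
  set R1 : ℝ := ∑ a, |c a * d a| with hR1
  have hR10 : 0 ≤ R1 := Finset.sum_nonneg fun a _ => abs_nonneg _
  have hR1le : ∀ i, |c i * d i| ≤ R1 := fun i =>
    Finset.single_le_sum (f := fun i => |c i * d i|) (fun i _ => abs_nonneg _) (Finset.mem_univ i)
  set R : ℝ := R1 + cs * (2 * Cs) with hR
  have hcC : 0 ≤ cs * (2 * Cs) := by positivity
  obtain ⟨δ, hδ, hdet⟩ := det_unif (m := n + 1) R hε
  refine ⟨δ / 2, by linarith, fun Z t ht hZ h1 h2 => ?_⟩
  set yb : (Fin (n + 1) → ℝ) → Fin (n + 1) → ℝ := fun y =>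
    Fin.cons (y 0) (pul n 0 k (tl n y)) with hyb
  have htlyb : ∀ y, tl n (yb y) = (k : ℝ) • tl n y := by
    intro y
    simp only [hyb]
    rw [tl_cons]
    funext i
    exact pul_apply (n := n) (s := 0) (tl n y) i
  have hHu : ∀ l l', Good (Function.update H l (fun _ => (2 : ℂ)) l') := by
    intro l l'
    by_cases h : l' = l
    · subst h
      rw [Function.update_self]
      exact good_const two_ne_zero
    · rw [Function.update_of_ne h]
      exact hH l'
  have hHp : ∀ l l', Per (Function.update H l (fun _ => (2 : ℂ)) l') := by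
    intro l l'
    by_cases h : l' = l
    · subst h
      rw [Function.update_self]
      exact fun _ _ => rfl
    · rw [Function.update_of_ne h]
      exact hP l'
  -- the matrices
  set N : (Fin (n + 1) → ℝ) → Fin (n + 1) → Fin (n + 1) → ℂ := fun y l =>
    Fin.cons ((Real.log ‖Z l (tl n y)‖ / t : ℝ) : ℂ) fun j => grow (Z l) y j.succ with hN
  set N' : (Fin (n + 1) → ℝ) → Fin (n + 1) → Fin (n + 1) → ℂ := fun y l =>
    Fin.cons ((c l * d l : ℝ) : ℂ) fun j => c l * grow (H l) (yb y) j.succ with hN'
  have hmain' : ∀ y, ((-Complex.I) ^ n * (Matrix.of (N' y)).det).re =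
      (∏ j, c j) * (∑ l, d l *
        integrand (Function.update H l fun _ => (2 : ℂ)) (yb y)) / Real.log 2 := by
    intro y
    have e1 : (Matrix.of (N' y)).det = (∏ j, (c j : ℂ)) * (Matrix.of fun l =>
        (Fin.cons ((d l : ℝ) : ℂ) (fun j => grow (H l) (yb y) j.succ) :
          Fin (n + 1) → ℂ)).det := by
      rw [← Matrix.det_mul_column]
      congr 1
      ext l j
      simp only [hN', Matrix.of_apply]
      refine Fin.cases ?_ (fun j => ?_) j
      · rw [Fin.cons_zero, Fin.cons_zero]
        push_cast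
        ring
      · rw [Fin.cons_succ, Fin.cons_succ]
    have e2 : ((Real.log 2 : ℝ) : ℂ) * (Matrix.of fun l =>
        (Fin.cons ((d l : ℝ) : ℂ) (fun j => grow (H l) (yb y) j.succ) :
          Fin (n + 1) → ℂ)).det = ∑ l, ((d l : ℝ) : ℂ) * (Matrix.of fun l' =>
            grow (Function.update H l (fun _ => (2 : ℂ)) l') (yb y)).det := by
      rw [det_col]
      refine Finset.sum_congr rfl fun l _ => ?_
      congr 1
      rw [Matrix.det_succ_row _ l, Matrix.det_succ_row _ l]
      refine Finset.sum_congr rfl fun j _ => ?_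
      have e3 : (Matrix.of (Function.update (fun l' => (Fin.cons ((d l' : ℝ) : ℂ)
          (fun j => grow (H l') (yb y) j.succ) : Fin (n + 1) → ℂ)) l
            (Fin.cons ((Real.log 2 : ℝ) : ℂ) fun _ => 0))) l j =
          (Matrix.of fun l' => grow (Function.update H l (fun _ => (2 : ℂ)) l') (yb y)) l j := by
        rw [Matrix.of_apply, Matrix.of_apply, Function.update_self, Function.update_self]
        refine Fin.cases ?_ (fun j => ?_) j
        · rw [Fin.cons_zero, grow_zero, Complex.norm_ofNat]
        · rw [Fin.cons_succ, grow_succ, lw_const]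
          simp
      rw [e3]
      rcases Fin.eq_zero_or_eq_succ j with rfl | ⟨j', rfl⟩
      · congr 1
        congr 1
        ext a b
        rw [Matrix.submatrix_apply, Matrix.submatrix_apply, Matrix.of_apply, Matrix.of_apply,
          Function.update_of_ne (Fin.succAbove_ne l a), Function.update_of_ne
            (Fin.succAbove_ne l a), Fin.succAbove_zero, Fin.cons_succ]
      · have e4 : (Matrix.of fun l' => grow (Function.update H l (fun _ => (2 : ℂ)) l') (yb y)) l
            j'.succ = 0 := by
          rw [Matrix.of_apply, Function.update_self, grow_succ, lw_const]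
          simp
        rw [e4, mul_zero, zero_mul, zero_mul]
    have hl : ((Real.log 2 : ℝ) : ℂ) ≠ 0 := by exact_mod_cast hlog2.ne'
    rw [eq_div_iff hlog2.ne', mul_comm _ (Real.log 2), ← Complex.re_ofReal_mul]
    have e5 : ((Real.log 2 : ℝ) : ℂ) * ((-Complex.I) ^ n * (Matrix.of (N' y)).det) =
        ((∏ j, c j : ℝ) : ℂ) * ∑ l, ((d l : ℝ) : ℂ) * ((-Complex.I) ^ n * (Matrix.of fun l' =>
            grow (Function.update H l (fun _ => (2 : ℂ)) l') (yb y)).det) := by
      have e6 : ∑ l, ((d l : ℝ) : ℂ) * ((-Complex.I) ^ n * (Matrix.of fun l' =>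
            grow (Function.update H l (fun _ => (2 : ℂ)) l') (yb y)).det) =
          (-Complex.I) ^ n * ∑ l, ((d l : ℝ) : ℂ) * (Matrix.of fun l' =>
            grow (Function.update H l (fun _ => (2 : ℂ)) l') (yb y)).det := by
        rw [Finset.mul_sum]
        exact Finset.sum_congr rfl fun l _ => by ring
      rw [e6, ← e2, e1]
      push_cast
      ring
    rw [e5, Complex.re_ofReal_mul, Complex.re_sum]
    congr 1
    refine Finset.sum_congr rfl fun l _ => ?_
    rw [Complex.re_ofReal_mul]
    rfl
  have hclose : ∀ y ∈ Icc (0 : Fin (n + 1) → ℝ) 1, ∀ l j, ‖N y l j - N' y l j‖ ≤ δ := by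
    intro y hy l j
    simp only [hN, hN']
    refine Fin.cases ?_ (fun j => ?_) j
    · rw [Fin.cons_zero, Fin.cons_zero, ← Complex.ofReal_sub, Complex.norm_real,
        Real.norm_eq_abs]
      exact (h1 l _).trans (by linarith)
    · rw [Fin.cons_succ, Fin.cons_succ]
      refine (grow_close (y' := yb y) hy rfl j (c l) (δ := δ / 2) ?_).trans (by linarith)
      rw [htlyb]
      exact h2 l j _
  have hbound : ∀ y ∈ Icc (0 : Fin (n + 1) → ℝ) 1, ∀ l j, ‖N' y l j‖ ≤ R := by
    intro y hy l j
    simp only [hN']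
    refine Fin.cases ?_ (fun j => ?_) j
    · rw [Fin.cons_zero, Complex.norm_real, Real.norm_eq_abs]
      exact (hR1le l).trans (by linarith)
    · rw [Fin.cons_succ, norm_mul, Complex.norm_real, Real.norm_eq_abs]
      have h3 : ‖grow (H l) (yb y) j.succ‖ ≤ 2 * Cs := by
        have h4 := grow_close (g := fun _ => (1 : ℂ)) (g' := H l) (y := y) (y' := yb y) hy rfl j 1
          (δ := Cs) (by
            rw [lw_const, zero_sub, norm_neg, Complex.ofReal_one, one_mul]
            exact (hCuw l j _).trans (hCule l))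
        have h5 : grow (fun _ => (1 : ℂ)) y j.succ = 0 := by
          rw [grow_succ, lw_const]
          simp
        rw [h5, zero_sub, norm_neg, Complex.ofReal_one, one_mul] at h4
        exact h4
      calc |c l| * ‖grow (H l) (yb y) j.succ‖ ≤ cs * (2 * Cs) :=
            mul_le_mul (hcsle l) h3 (norm_nonneg _) hcs0
        _ ≤ R := by linarith
  -- the integrals
  have hyc : Continuous yb := by
    refine continuous_pi fun j => ?_
    refine Fin.cases ?_ (fun j => ?_) j
    · exact continuous_apply _
    · exact (continuous_apply j).comp ((pul n 0 k).continuous.comp (tl n).continuous)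
  have hc1 : Continuous fun y => integrand Z y / t := (continuous_integrand hZ).div_const t
  have hcl : ∀ l, Continuous fun y =>
      integrand (Function.update H l fun _ => (2 : ℂ)) (yb y) := fun l =>
    (continuous_integrand (hHu l)).comp hyc
  have hc2 : Continuous fun y => (∏ j, c j) * (∑ l, d l *
        integrand (Function.update H l fun _ => (2 : ℂ)) (yb y)) / Real.log 2 :=
    (continuous_const.mul (continuous_finsetSum _ fun l _ =>
      continuous_const.mul (hcl l))).div_const _
  have hI1 : pairing Z / t = ∫ y in Icc (0 : Fin (n + 1) → ℝ) 1, integrand Z y / t := by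
    unfold pairing
    rw [integral_div]
  have hI2 : (∏ j, c j) * (∑ l, d l *
        pairing (Function.update H l fun _ => (2 : ℂ))) / Real.log 2 =
      ∫ y in Icc (0 : Fin (n + 1) → ℝ) 1, (∏ j, c j) * (∑ l, d l *
        integrand (Function.update H l fun _ => (2 : ℂ)) (yb y)) / Real.log 2 := by
    rw [integral_div, integral_const_mul, integral_finsetSum]
    · congr 2
      refine Finset.sum_congr rfl fun l _ => ?_
      rw [integral_const_mul]
      congr 1
      exact (integral_pul (s := 0) hk (hHu l) (hHp l)).symm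
    · intro l _
      exact ((continuous_const.mul (hcl l)).continuousOn.integrableOn_compact isCompact_Icc)
  rw [hI1, hI2, ← MeasureTheory.integral_sub]
  · have hvol : (volume : Measure (Fin (n + 1) → ℝ)) (Icc 0 1) = 1 := by
      rw [Real.volume_Icc_pi]
      simp
    have h4 := norm_setIntegral_le_of_norm_le_const (μ := (volume : Measure (Fin (n + 1) → ℝ)))
      (s := Icc 0 1)
      (f := fun y => integrand Z y / t - (∏ j, c j) * (∑ l, d l *
        integrand (Function.update H l fun _ => (2 : ℂ)) (yb y)) / Real.log 2)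
      (C := ε) (by rw [hvol]; exact ENNReal.one_lt_top) fun y hy => by
        rw [Real.norm_eq_abs, integrand_scale Z ht.ne', ← hmain', ← Complex.sub_re, ← mul_sub]
        refine (Complex.abs_re_le_norm _).trans ?_
        rw [norm_mul, norm_pow, norm_neg, Complex.norm_I, one_pow, one_mul]
        exact hdet (N' y) (N y) (hbound y hy) (hclose y hy)
    rw [Measure.real, hvol] at h4
    simpa using h4
  · exact hc1.continuousOn.integrableOn_compact isCompact_Icc
  · exact hc2.continuousOn.integrableOn_compact isCompact_Icc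

end Pool.Agent.L7h9.CP
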