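import Pool.Agent.L7h9.SU.Ring
set_option autoImplicit false

/-!
Coverings `W_e(z_e) = h_e` of a ring `A`, the circuits.
-/

namespace Pool.Agent.L7h9.CP

open Pool.Agent.TH826.MK

open Pool.Agent.N65.TL

section ring

variable {K A : Type*} [Field K] [CommRing A] {m : ℕ}

/-- The equation `W_e(z_e) - h_e`. -/
noncomputable def ceqn (ι : K →+* A) (W : Fin m → LP K 1) (h : Fin m → A) (e : Fin m) : LP A m :=
  lev (AddMonoidAlgebra.singleZeroRingHom.comp ι) (fun _ => zlau e) (W e) -
    AddMonoidAlgebra.singleZeroRingHom (h e)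

/-- The ring `A[z_e, z_e⁻¹]_e` modulo the equations `W_e(z_e) = h_e`. -/
def CRing (ι : K →+* A) (W : Fin m → LP K 1) (h : Fin m → A) : Type _ :=
  LP A m ⧸ Ideal.span (Set.range (ceqn ι W h))

variable (ι : K →+* A) (W : Fin m → LP K 1) (h : Fin m → A)

noncomputable instance instCRing : CommRing (CRing ι W h) :=
  Ideal.Quotient.commRing (Ideal.span (Set.range (ceqn ι W h)))

/-- The restriction of functions. -/
noncomputable def cmk : LP A m →+* CRing ι W h := Ideal.Quotient.mk _

/-- The functions in `A`. -/
noncomputable def cbase : A →+* CRing ι W h := (cmk ι W h).comp AddMonoidAlgebra.singleZeroRingHom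

/-- The units `z_e`. -/
noncomputable def cz (e : Fin m) : (CRing ι W h)ˣ := Units.map (cmk ι W h).toMonoidHom (zlau e)

end ring

section cov

variable {K A : Type*} [Field K] [CommRing A] {m n : ℕ}

/-- Data for a covering: functions `g_e` in `A`, polynomials `F_e` and Laurent polynomials `W_e` in
one variable, and units `f_e` of `A`. -/
structure Cov (K A : Type*) [Field K] [CommRing A] (m : ℕ) where
  /-- the functions `g_e` -/
  g : Fin m → A
  /-- the polynomials `F_e` -/
  F : Fin m → Polynomial K
  /-- the Laurent polynomials `W_e` -/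
  W : Fin m → LP K 1
  /-- the units `f_e = F_e(g_e)` -/
  f : Fin m → Aˣ

/-- The coefficients of the largest and of the smallest power in a Laurent polynomial in one
variable are roots of unity. -/
def UnitEnds (W : LP K 1) : Prop :=
  ∀ p, W.coeff p ≠ 0 → ((∀ q, W.coeff q ≠ 0 → q 0 ≤ p 0) ∨ ∀ q, W.coeff q ≠ 0 → p 0 ≤ q 0) →
    ∃ k : ℕ, k ≠ 0 ∧ W.coeff p ^ k = 1

/-- The conditions: `f_e = F_e(g_e)`; the polynomials `F_e` are monic of positive degree with
integral coefficients; the Laurent polynomials `W_e` have integral coefficients and terms with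
positive and with negative exponents, and their extreme coefficients are roots of unity. -/
structure Cov.Admissible (C : Cov K A m) (ι : K →+* A) : Prop where
  val : ∀ e, (C.f e : A) = (C.F e).eval₂ ι (C.g e)
  monic : ∀ e, (C.F e).Monic
  pos : ∀ e, 0 < (C.F e).natDegree
  integral : ∀ e i, IsIntegral ℤ ((C.F e).coeff i)
  integralW : ∀ e, Integral (C.W e)
  interior : ∀ e, Interior (C.W e)
  ends : ∀ e, UnitEnds (C.W e)

/-- The right hand sides `λ ^ deg F_e f_e` of the equations. -/
noncomputable def Cov.rhs (C : Cov K A m) (ι : K →+* A) (lam : K) (e : Fin m) : A :=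
  ι lam ^ (C.F e).natDegree * C.f e

/-- The coordinate ring of the covering `W_e(z_e) = λ ^ deg F_e f_e`. -/
def XR (C : Cov K A m) (ι : K →+* A) (lam : K) : Type _ := CRing ι C.W (C.rhs ι lam)

noncomputable instance instXR (C : Cov K A m) (ι : K →+* A) (lam : K) : CommRing (XR C ι lam) :=
  show CommRing (CRing ι C.W (C.rhs ι lam)) from inferInstance

variable (C : Cov K A m) (ι : K →+* A) (lam : K)

/-- The functions in `A`. -/
noncomputable def xbase : A →+* XR C ι lam := cbase ι C.W (C.rhs ι lam)

/-- The units `z_e`. -/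
noncomputable def xz (e : Fin m) : (XR C ι lam)ˣ := cz ι C.W (C.rhs ι lam) e

/-- `n + 1` different indices `e` form a circuit if there is a relation `∑ ε_i g_(D i) = 0` whose
coefficients are roots of unity. -/
def Circuit (D : Fin (n + 1) → Fin m) : Prop :=
  Function.Injective D ∧ ∃ c : Fin (n + 1) → K, (∀ i, ∃ k : ℕ, k ≠ 0 ∧ c i ^ k = 1) ∧
    ∑ i, ι (c i) * C.g (D i) = 0

/-- The class `{z_e : e ∈ D}`. -/
noncomputable def sym (D : Fin (n + 1) → Fin m) : KQ (XR C ι lam) (n + 1) :=
  symb fun i => xz C ι lam (D i)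

/-- The symbol in which the `i`-th entry of `{f_e : e ∈ D}` is replaced by the constant `2`. -/
noncomputable def sub [CharZero K] (D : Fin (n + 1) → Fin m) (i : Fin (n + 1)) : KQ A (n + 1) :=
  symb (Function.update (fun j => C.f (D j)) i
    (Units.map ι.toMonoidHom (Units.mk0 2 two_ne_zero)))

/-- The class `∑_i deg F_(D i) · {f_e : e ∈ D, with 2 in the place i}`. Its regulator on a torus is
`log 2` times the integral of a differential form with integral periods. -/
noncomputable def lead [CharZero K] (D : Fin (n + 1) → Fin m) : KQ A (n + 1) :=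
  ∑ i, ((C.F (D i)).natDegree : ℚ) • sub C ι D i

end cov

end Pool.Agent.L7h9.CP
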