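import Mathlib
set_option autoImplicit false

/-!
Two lemmas of linear algebra.
-/

namespace Pool.Agent.L7h9.CP

/-- A matrix with linearly independent columns has a nonzero minor. -/
theorem exists_minor {R C : Type*} [Fintype C] [DecidableEq C] (M : R → C → ℝ)
    (h : ∀ x : C → ℝ, (∀ r, ∑ c, M r c * x c = 0) → x = 0) :
    ∃ f : C → R, (Matrix.of fun i j => M (f i) j).det ≠ 0 := by
  classical
  have hspan : Submodule.span ℝ (Set.range M) = ⊤ := by
    by_contra hne
    obtain ⟨φ, hφ, hle⟩ := Submodule.exists_le_ker_of_lt_top _ (lt_top_iff_ne_top.2 hne)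
    apply hφ
    have h1 : (fun c => φ (Pi.single c 1)) = 0 := by
      refine h _ fun r => ?_
      have h2 : φ (M r) = 0 := hle (Submodule.subset_span ⟨r, rfl⟩)
      have h3 : M r = ∑ c, M r c • (Pi.single c (1 : ℝ) : C → ℝ) := by
        funext c
        rw [Finset.sum_apply, Finset.sum_eq_single c]
        · simp
        · intro c' _ hc'
          simp [Pi.single_apply, Ne.symm hc']
        · intro h4
          exact absurd (Finset.mem_univ _) h4
      rw [h3, map_sum] at h2
      simpa [map_smul] using h2
    refine LinearMap.pi_ext' fun c => LinearMap.ext fun a => ?_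
    have h2 := congrFun h1 c
    have h3 : (Pi.single c a : C → ℝ) = a • Pi.single c 1 := by
      rw [← Pi.single_smul, smul_eq_mul, mul_one]
    rw [LinearMap.comp_apply, LinearMap.coe_single, h3, map_smul]
    rw [show φ (Pi.single c 1) = 0 from h2]
    simp
  obtain ⟨b, hb, hspanb, hlin⟩ := exists_linearIndependent ℝ (Set.range M)
  have B : Module.Basis b ℝ (C → ℝ) := Module.Basis.mk hlin (by
    rw [Subtype.range_coe, hspanb, hspan])
  set e : C ≃ b := (Pi.basisFun ℝ C).indexEquiv B with he
  choose g hg using fun i : C => hb (e i).2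
  refine ⟨g, ?_⟩
  have h1 : LinearIndependent ℝ (fun i => M (g i)) := by
    have h2 : (fun i => M (g i)) = (fun x : b => (x : C → ℝ)) ∘ e := by
      funext i
      exact hg i
    rw [h2]
    exact hlin.comp _ e.injective
  have h2 := (Matrix.linearIndependent_rows_iff_isUnit (A := Matrix.of fun i j => M (g i) j)).1 h1
  rw [Matrix.isUnit_iff_isUnit_det] at h2
  exact h2.ne_zero

/-- The products of two-valued functions over different sets with the same number of elements are
linearly independent. -/
theorem prod_indep {E κ : Type*} [Fintype E] [DecidableEq E] [Fintype κ] (c : E → Bool → ℝ)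
    (hc : ∀ e, c e true ≠ c e false) (S : κ → Finset E) {N : ℕ} (hS : ∀ k, (S k).card = N)
    (hinj : Function.Injective S) (x : κ → ℝ)
    (h : ∀ s : E → Bool, ∑ k, x k * ∏ e ∈ S k, c e (s e) = 0) : x = 0 := by
  classical
  funext k
  set w : E → Bool → ℝ := fun e b => if e ∈ S k then (if b then 1 else -1) else
    (if b then 0 else 1) with hw
  set Q : κ → E → Bool → ℝ := fun j e b => w e b * (if e ∈ S j then c e b else 1) with hQ
  have key : ∀ j, ∑ s : E → Bool, (∏ e, w e (s e)) * ∏ e ∈ S j, c e (s e) =
      ∏ e, ∑ b : Bool, Q j e b := by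
    intro j
    rw [Finset.prod_univ_sum, Fintype.piFinset_univ]
    refine Finset.sum_congr rfl fun s _ => ?_
    simp only [hQ]
    rw [Finset.prod_mul_distrib]
    congr 1
    rw [Finset.prod_ite_mem, Finset.univ_inter]
  have h0 : ∑ j, x j * ∏ e, ∑ b : Bool, Q j e b = 0 := by
    simp only [← key, Finset.mul_sum]
    rw [Finset.sum_comm]
    refine Finset.sum_eq_zero fun s _ => ?_
    have h1 : ∑ j, x j * ((∏ e, w e (s e)) * ∏ e ∈ S j, c e (s e)) =
        (∏ e, w e (s e)) * ∑ j, x j * ∏ e ∈ S j, c e (s e) := by
      rw [Finset.mul_sum]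
      exact Finset.sum_congr rfl fun j _ => by ring
    rw [h1, h, mul_zero]
  rw [Finset.sum_eq_single k] at h0
  · refine (mul_eq_zero.1 h0).resolve_right (Finset.prod_ne_zero_iff.2 fun e _ => ?_)
    simp only [hQ, hw, Fintype.sum_bool]
    by_cases he : e ∈ S k
    · simpa [he, sub_eq_zero, ← sub_eq_add_neg] using hc e
    · simp [he]
  · intro j _ hjk
    have hne : ∃ e ∈ S k, e ∉ S j := by
      by_contra hcon
      push Not at hcon
      exact hjk (hinj (Finset.eq_of_subset_of_card_le hcon (by rw [hS, hS])).symm)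
    obtain ⟨e, he, he'⟩ := hne
    rw [Finset.prod_eq_zero (Finset.mem_univ e), mul_zero]
    simp [hQ, hw, he, he']
  · intro h1
    exact absurd (Finset.mem_univ k) h1

end Pool.Agent.L7h9.CP
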