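import Pool.Agent.L7h9.CP.Defs
set_option autoImplicit false

/-!
Points of the coverings.
-/

namespace Pool.Agent.L7h9.CP

open Pool.Agent.TH826.MK

open Pool.Agent.N65.TL

variable {K A S : Type*} [Field K] [CommRing A] [CommRing S] {m : ℕ}

theorem lev_con {n : ℕ} (φ : A →+* S) (z : Fin n → Sˣ) (a : A) :
    lev φ z (AddMonoidAlgebra.singleZeroRingHom a) = φ a := by
  have h : (AddMonoidAlgebra.singleZeroRingHom a : LP A n) = AddMonoidAlgebra.single 0 a := rfl
  rw [h, lev_single, mon_zero, Units.val_one, mul_one]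

theorem lev_zlau {n : ℕ} (φ : A →+* S) (z : Fin n → Sˣ) (i : Fin n) :
    lev φ z ((zlau i : (LP A n)ˣ) : LP A n) = z i := by
  have h1 : ((zlau i : (LP A n)ˣ) : LP A n) = AddMonoidAlgebra.single (Pi.single i 1) 1 := rfl
  rw [h1, lev_single, map_one, one_mul, mon_single]

variable {ι : K →+* A} {W : Fin m → LP K 1} {h : Fin m → A}

theorem lev_ceqn {φ : A →+* S} {z : Fin m → Sˣ} {e : Fin m}
    (he : lev (φ.comp ι) (fun _ => z e) (W e) = φ (h e)) : lev φ z (ceqn ι W h e) = 0 := by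
  unfold ceqn
  rw [map_sub, lev_con, lev_comp]
  have e1 : (lev φ z).comp (AddMonoidAlgebra.singleZeroRingHom.comp ι) = φ.comp ι := by
    refine RingHom.ext fun x => ?_
    exact lev_con φ z (ι x)
  have e2 : (fun _ : Fin 1 => Units.map (lev φ z : LP A m →* S) (zlau e)) = fun _ => z e := by
    funext _
    exact Units.ext (lev_zlau φ z e)
  rw [e1, e2, he, sub_self]

/-- The points. -/
noncomputable def cev (φ : A →+* S) (z : Fin m → Sˣ)
    (hz : ∀ e, lev (φ.comp ι) (fun _ => z e) (W e) = φ (h e)) : CRing ι W h →+* S :=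
  Ideal.Quotient.lift _ (lev φ z) (by
    intro a ha
    have h1 : Ideal.span (Set.range (ceqn ι W h)) ≤ RingHom.ker (lev φ z) := by
      rw [Ideal.span_le]
      rintro _ ⟨e, rfl⟩
      exact lev_ceqn (hz e)
    exact h1 ha)

theorem cev_cmk (φ : A →+* S) (z : Fin m → Sˣ)
    (hz : ∀ e, lev (φ.comp ι) (fun _ => z e) (W e) = φ (h e)) (P : LP A m) :
    cev φ z hz (cmk ι W h P) = lev φ z P := Ideal.Quotient.lift_mk _ _ _

theorem cev_cbase (φ : A →+* S) (z : Fin m → Sˣ)
    (hz : ∀ e, lev (φ.comp ι) (fun _ => z e) (W e) = φ (h e)) (a : A) :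
    cev φ z hz (cbase ι W h a) = φ a := by
  unfold cbase
  rw [RingHom.comp_apply, cev_cmk, lev_con]

theorem cev_cz (φ : A →+* S) (z : Fin m → Sˣ)
    (hz : ∀ e, lev (φ.comp ι) (fun _ => z e) (W e) = φ (h e)) (e : Fin m) :
    cev φ z hz (cz ι W h e : CRing ι W h) = z e := by
  have h1 : (cz ι W h e : CRing ι W h) = cmk ι W h ((zlau e : (LP A m)ˣ) : LP A m) := rfl
  rw [h1, cev_cmk, lev_zlau]

theorem cmk_surjective : Function.Surjective (cmk ι W h) := Ideal.Quotient.mk_surjective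

theorem cev_congr {φ φ' : A →+* S} {z z' : Fin m → Sˣ}
    (hz : ∀ e, lev (φ.comp ι) (fun _ => z e) (W e) = φ (h e))
    (hz' : ∀ e, lev (φ'.comp ι) (fun _ => z' e) (W e) = φ' (h e)) (e : φ = φ') (e' : z = z') :
    cev φ z hz = cev φ' z' hz' := by
  subst e e'
  rfl

/-- The equations. -/
theorem eqn_hom (f : CRing ι W h →+* S) (e : Fin m) :
    lev ((f.comp (cbase ι W h)).comp ι)
      (fun _ => Units.map (f : CRing ι W h →* S) (cz ι W h e)) (W e) = f (cbase ι W h (h e)) := by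
  have h0 : cmk ι W h (ceqn ι W h e) = 0 :=
    Ideal.Quotient.eq_zero_iff_mem.2 (Ideal.subset_span ⟨e, rfl⟩)
  unfold ceqn at h0
  rw [map_sub, lev_comp, sub_eq_zero] at h0
  have h1 := congrArg f h0
  rw [lev_comp] at h1
  exact h1

end Pool.Agent.L7h9.CP
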