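import Pool.Agent.L7h9.SU.Tor
set_option autoImplicit false

/-!
Functions `Z` on the torus with `W(Z) = λ ^ d f`, for large `λ` and `W` in one variable.
-/

namespace Pool.Agent.L7h9.CP

open Pool.Agent.TH826.MK

open Pool.Agent.N65.TL

open Pool.Agent.L7h9.SU

open Pool.Agent.L7h9.LT (lval lder)

/-- the vertices of the Newton interval -/
theorem exists_end {K : Type*} [Field K] {W : LP K 1} (hW : Interior W) (x : ℤ) (hx : x ≠ 0) :
    ∃ (v : Fin 1 → ℤ), 0 < x * v 0 ∧ W.coeff v ≠ 0 ∧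
      ∀ m, W.coeff m ≠ 0 → m ≠ v → x * m 0 < x * v 0 := by
  classical
  obtain ⟨m1, hm1, hpos⟩ := hW (fun _ => x) (fun h => hx (congrFun h 0))
  rw [Fin.sum_univ_one] at hpos
  obtain ⟨v, hv, hmax⟩ := Finset.exists_max_image W.coeff.support (fun m => x * m 0)
    ⟨m1, Finsupp.mem_support_iff.2 hm1⟩
  have h1 := hmax m1 (Finsupp.mem_support_iff.2 hm1)
  refine ⟨v, hpos.trans_le h1, Finsupp.mem_support_iff.1 hv, fun m hm hmv => ?_⟩
  refine lt_of_le_of_ne (hmax m (Finsupp.mem_support_iff.2 hm)) fun h => hmv ?_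
  funext i
  rw [Fin.eq_zero i]
  exact mul_left_cancel₀ hx h

theorem lw_smul {n k : ℕ} {g : (Fin n → ℝ) → ℂ} (hg : Good g) (j : Fin n) (θ : Fin n → ℝ) :
    lw (fun θ : Fin n → ℝ => g ((k : ℝ) • θ)) j θ = k * lw g j ((k : ℝ) • θ) := by
  have e : ∀ θ : Fin n → ℝ, pul n 0 k θ = (k : ℝ) • θ := by
    intro θ
    funext i
    exact pul_apply (n := n) (s := 0) θ i
  have h := lw_pul_cast (n := n) (s := 0) (k := k) hg j θ
  have h2 : (fun θ : Fin (n + 0) → ℝ => g (pul n 0 k θ)) = fun θ => g ((k : ℝ) • θ) :=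
    funext fun θ => by rw [e]
  rw [h2, e] at h
  exact h

variable {K A : Type*} [Field K] [CharZero K] [CommRing A] {n : ℕ}

theorem exists_Z1 (σ : K →+* ℂ) (γ : Torus A n) (f : Aˣ) {W : LP K 1} {v : Fin 1 → ℤ}
    (hv : W.coeff v ≠ 0) {c : ℤ} (hmax : ∀ m, W.coeff m ≠ 0 → m ≠ v → c * m 0 < c * v 0) {k : ℕ}
    (hk0 : 0 < k) (hk : (k : ℤ) = c * v 0)
    {d : ℕ} (hd : 0 < d) {δ1 : ℝ} (hδ1 : 0 < δ1) :
    ∃ Λ0 : ℝ, 1 < Λ0 ∧ ∀ lam : K, Λ0 ≤ ‖σ lam‖ →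
      ∃ Z : (Fin n → ℝ) → ℂ, Good Z ∧ Per Z ∧
        (∀ θ, lval σ W (fun _ : Fin 1 => Z θ) = σ lam ^ d * γ.fn (f : A) ((k : ℝ) • θ)) ∧
        (∀ θ, ∃ i, lder σ W (fun _ : Fin 1 => Z θ) i ≠ 0) ∧
        (∀ θ, |Real.log ‖Z θ‖ / Real.log ‖σ lam‖ - c * (d / k)| ≤ δ1) ∧
        (∀ j θ, ‖lw Z j θ - c * lw (γ.fn (f : A)) j ((k : ℝ) • θ)‖ ≤ δ1) := by
  classical
  have hkR : (0 : ℝ) < k := by exact_mod_cast hk0
  have hkC : (k : ℂ) ≠ 0 := by exact_mod_cast hk0.ne'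
  have hσv : σ (W.coeff v) ≠ 0 := (map_ne_zero σ).2 hv
  set al : Fin 1 → ℤ := fun _ => c with hal
  have hdot : dot al v = k := by
    unfold dot
    rw [Fin.sum_univ_one, hal, hk]
  have hpos : 0 < dot al v := by rw [hdot]; exact_mod_cast hk0
  have hmax' : ∀ m, W.coeff m ≠ 0 → m ≠ v → dot al m < dot al v := by
    intro m hm hmv
    unfold dot
    rw [Fin.sum_univ_one, Fin.sum_univ_one]
    exact hmax m hm hmv
  have hkn : (dot al v).toNat = k := by rw [hdot]; simp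
  -- the root on the base
  have hF : Good (γ.fn (f : A)) := γ.good f
  have hFp : Per (γ.fn (f : A)) := γ.per _
  obtain ⟨h, hh, hhp, hhk⟩ := exists_kroot hF hFp hk0
  obtain ⟨Ch, hCh0, hChl, hChw⟩ := Good.bdd hh hhp
  obtain ⟨CF, hCF0, hCFl, -⟩ := Good.bdd hF hFp
  have hlwh : ∀ j θ, lw h j θ = lw (γ.fn (f : A)) j ((k : ℝ) • θ) := by
    intro j θ
    have e1 := Pool.Agent.TH577.UA.lw_pow hh k j θ
    have e2 : (fun θ => h θ ^ k) = fun θ => γ.fn (f : A) ((k : ℝ) • θ) := funext hhk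
    rw [e2, lw_smul hF] at e1
    exact mul_left_cancel₀ hkC e1.symm
  obtain ⟨δ0, hδ0, hδ01, hδ0le⟩ : ∃ δ0 : ℝ, 0 < δ0 ∧ δ0 ≤ 1 ∧ δ0 ≤ δ1 :=
    ⟨min δ1 1, lt_min hδ1 one_pos, min_le_right _ _, min_le_left _ _⟩
  obtain ⟨R, hR1, hz⟩ := exists_z (s := 0) σ hv hpos hmax' 0 hCh0 hδ0
  obtain ⟨Bc, hBc, hcrit⟩ := Pool.Agent.L7h9.LT.exists_bound (s := 0) σ W
  have hcR : (0 : ℝ) ≤ |(c : ℝ)| := abs_nonneg _
  set C2 : ℝ := |Real.log ‖σ (W.coeff v)‖| + Ch with hC2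
  have hC20 : 0 ≤ C2 := by positivity
  have hlogR : 0 ≤ Real.log R := Real.log_nonneg hR1
  set M : ℝ := k * (Real.log R + C2) + (δ0 + |(c : ℝ)| * C2) / δ0 + (|Real.log Bc| + CF) + 1 with hM
  have hM2 : 0 ≤ k * (Real.log R + C2) := by positivity
  have hM3 : 0 ≤ (δ0 + |(c : ℝ)| * C2) / δ0 := by positivity
  have hM4 : 0 ≤ |Real.log Bc| + CF := by positivity
  have hdR : (1 : ℝ) ≤ d := by exact_mod_cast hd
  refine ⟨Real.exp M + 1, by linarith [Real.exp_pos M], fun lam hlam => ?_⟩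
  have hln : 0 < ‖σ lam‖ := by linarith [Real.exp_pos M]
  have hl0 : σ lam ≠ 0 := norm_pos_iff.1 hln
  set t : ℝ := Real.log ‖σ lam‖ with ht
  have htM : M ≤ t := by
    rw [ht, Real.le_log_iff_exp_le hln]
    linarith
  have htpos : 0 < t := by linarith
  have htd : t ≤ d * t := by nlinarith
  -- the root
  obtain ⟨κ0, hκ⟩ := IsAlgClosed.exists_pow_nat_eq (σ lam ^ d / σ (W.coeff v)) hk0
  have hκ0 : κ0 ≠ 0 := by
    rintro rfl
    rw [zero_pow hk0.ne'] at hκ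
    exact (div_ne_zero (pow_ne_zero _ hl0) hσv) hκ.symm
  have hlogκ : Real.log ‖κ0‖ = (d * t - Real.log ‖σ (W.coeff v)‖) / k := by
    have h1 : (k : ℝ) * Real.log ‖κ0‖ = d * t - Real.log ‖σ (W.coeff v)‖ := by
      rw [← Real.log_pow, ← norm_pow, hκ, norm_div, Real.log_div (norm_ne_zero_iff.2
        (pow_ne_zero _ hl0)) (norm_ne_zero_iff.2 hσv), norm_pow, Real.log_pow]
    rw [← h1]
    field_simp
  set Λ : (Fin n → ℝ) → ℂ := fun θ => κ0 * h θ with hΛ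
  have hΛg : Good Λ := (good_const hκ0).mul hh
  have hΛp : Per Λ := by
    intro θ j
    simp only [hΛ]
    rw [hhp]
  have hΛlog : ∀ θ, |Real.log ‖Λ θ‖ - d * t / k| ≤ C2 := by
    intro θ
    have h1 : Real.log ‖Λ θ‖ = Real.log ‖κ0‖ + Real.log ‖h θ‖ := by
      simp only [hΛ]
      rw [norm_mul, Real.log_mul (norm_ne_zero_iff.2 hκ0) (norm_ne_zero_iff.2 (hh.ne_zero _))]
    rw [h1, hlogκ]
    have h2 : (d * t - Real.log ‖σ (W.coeff v)‖) / k + Real.log ‖h θ‖ - d * t / k =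
        -(Real.log ‖σ (W.coeff v)‖ / k) + Real.log ‖h θ‖ := by ring
    rw [h2]
    refine (abs_add_le _ _).trans (add_le_add ?_ (hChl _))
    rw [abs_neg, abs_div, abs_of_pos hkR]
    have h3 : (1 : ℝ) ≤ k := by exact_mod_cast hk0
    exact div_le_self (abs_nonneg _) h3
  have hΛR : ∀ θ, R ≤ ‖Λ θ‖ := by
    intro θ
    have h1 := (abs_le.1 (hΛlog θ)).1
    have h2 : Real.log R ≤ Real.log ‖Λ θ‖ := by
      have h3 : Real.log R + C2 ≤ d * t / k := by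
        rw [le_div_iff₀ hkR]
        linarith
      linarith
    exact (Real.log_le_log_iff (by linarith) (norm_pos_iff.2 (hΛg.ne_zero θ))).1 h2
  have hlwΛ : ∀ j θ, lw Λ j θ = lw h j θ := by
    intro j θ
    have h1 := lw_mul (good_const (d := n) hκ0) hh j θ
    rw [lw_const, zero_add] at h1
    exact h1
  have hΛB : ∀ j θ, ‖lw Λ j θ‖ ≤ Ch := by
    intro j θ
    rw [hlwΛ]
    exact hChw _ _
  have hΛk : ∀ θ, σ (W.coeff v) * Λ θ ^ k = σ lam ^ d * γ.fn (f : A) ((k : ℝ) • θ) := by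
    intro θ
    simp only [hΛ]
    rw [mul_pow, hκ, hhk]
    field_simp
  obtain ⟨Z, hZg, hZp, hZlog, hZlw, hZeq⟩ := hz n (fun l => l.elim0) Λ hΛg hΛp hΛR hΛB
  rw [hkn] at hZeq
  have hZ0 : ∀ θ, (fun i => Z i θ) = fun _ : Fin 1 => Z 0 θ := by
    intro θ
    funext i
    rw [Fin.eq_zero i]
  have hlv : ∀ θ, lval σ W (fun _ : Fin 1 => Z 0 θ) =
      σ lam ^ d * γ.fn (f : A) ((k : ℝ) • θ) := by
    intro θ
    rw [← hZ0]
    exact (hZeq θ).trans (hΛk θ)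
  refine ⟨Z 0, hZg 0, hZp 0, hlv, fun θ => ?_, fun θ => ?_, fun j θ => ?_⟩
  · refine hcrit _ (fun i => (hZg 0).ne_zero θ) ?_
    rw [hlv, norm_mul, norm_pow]
    have h1 : γ.fn (f : A) ((k : ℝ) • θ) ≠ 0 := hF.ne_zero _
    have h2 := (abs_le.1 (hCFl ((k : ℝ) • θ))).1
    have h3 : Real.log Bc ≤ Real.log (‖σ lam‖ ^ d * ‖γ.fn (f : A) ((k : ℝ) • θ)‖) := by
      rw [Real.log_mul (pow_pos hln d).ne' (norm_ne_zero_iff.2 h1), Real.log_pow]
      have h4 := le_abs_self (Real.log Bc)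
      linarith
    exact (Real.log_le_log_iff hBc (mul_pos (pow_pos hln d) (norm_pos_iff.2 h1))).1 h3
  · refine le_trans ?_ hδ0le
    have h1 := hZlog 0 θ
    have h2 := hΛlog θ
    have hal0 : ((al 0 : ℤ) : ℝ) = c := rfl
    rw [hal0] at h1
    have h3 : Real.log ‖Z 0 θ‖ / t - c * (d / k) =
        ((Real.log ‖Z 0 θ‖ - c * Real.log ‖Λ θ‖) +
          c * (Real.log ‖Λ θ‖ - d * t / k)) / t := by
      field_simp
      ring
    rw [h3, abs_div, abs_of_pos htpos, div_le_iff₀ htpos]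
    refine (abs_add_le _ _).trans ?_
    rw [abs_mul]
    have h4 : |(c : ℝ)| * |Real.log ‖Λ θ‖ - d * t / k| ≤ |(c : ℝ)| * C2 :=
      mul_le_mul_of_nonneg_left h2 hcR
    have h5 : (δ0 + |(c : ℝ)| * C2) / δ0 ≤ t := by linarith
    rw [div_le_iff₀ hδ0] at h5
    linarith
  · refine le_trans ?_ hδ0le
    have h1 := hZlw 0 j θ
    have hal0 : ((al 0 : ℤ) : ℂ) = c := rfl
    rw [hal0, Finset.univ_eq_empty, Finset.sum_empty, mul_zero, add_zero, hlwΛ, hlwh] at h1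
    exact h1

end Pool.Agent.L7h9.CP
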