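import Pool.Agent.L7h9.CP.Ring
import Pool.Agent.L7h9.SU.Alg
set_option autoImplicit false

/-!
The classes of the circuits are unramified.
-/

namespace Pool.Agent.L7h9.CP

open scoped WithZero

open Pool.Agent.TH826.MK

open Pool.Agent.N65.TL

section replace

variable {L : Type*} [Field L] {N : ℕ}

theorem mem_of_update (v : Valuation L ℤᵐ⁰) (a : Fin N → Lˣ) (i : Fin N) {x o ρ : Lˣ} {p d : ℤ}
    (hp : p ≠ 0) (hρ : ∃ k : ℕ, k ≠ 0 ∧ ρ ^ k = 1) (ho : v ((o : L) - 1) < 1)
    (h : ρ * a i ^ p = x ^ d * o) (hx : symb (Function.update a i x) ∈ unitPart v N) :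
    symb a ∈ unitPart v N := by
  have h1 : symb (Function.update a i (a i ^ p)) = (p : ℚ) • symb a := by
    rw [symb_update_zpow, Function.update_eq_self]
  have h2 : symb (Function.update a i (ρ * a i ^ p)) = symb (Function.update a i (a i ^ p)) := by
    refine symb_tors _ _ fun l => ?_
    by_cases hl : l = i
    · subst hl
      obtain ⟨k, hk, hk1⟩ := hρ
      refine ⟨k, hk, ?_⟩
      rw [Function.update_self, Function.update_self, mul_div_cancel_right]
      exact hk1
    · refine ⟨1, one_ne_zero, ?_⟩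
      rw [Function.update_of_ne hl, Function.update_of_ne hl, div_self', one_pow]
  have h3 : symb (Function.update a i (x ^ d * o)) ∈ unitPart v N := by
    rw [symb_update_mul, symb_update_zpow]
    refine add_mem (Submodule.smul_mem _ _ hx) ?_
    refine mem_unitPart_of_oneUnit' v i _ ?_
    rw [Function.update_self]
    exact ho
  rw [← h, h2, h1] at h3
  have h4 := (unitPart v N).smul_mem ((p : ℚ)⁻¹) h3
  rwa [smul_smul, inv_mul_cancel₀ (by exact_mod_cast hp), one_smul] at h4

theorem mem_of_replace (v : Valuation L ℤᵐ⁰) (a b : Fin N → Lˣ) (T : Finset (Fin N))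
    (h : ∀ i ∈ T, ∃ (p d : ℤ) (ρ o : Lˣ), p ≠ 0 ∧ (∃ k : ℕ, k ≠ 0 ∧ ρ ^ k = 1) ∧
      v ((o : L) - 1) < 1 ∧ ρ * a i ^ p = b i ^ d * o)
    (hb : symb (fun i => if i ∈ T then b i else a i) ∈ unitPart v N) :
    symb a ∈ unitPart v N := by
  classical
  induction T using Finset.induction_on with
  | empty => simpa using hb
  | insert j T hj ih =>
    refine ih (fun i hi => h i (Finset.mem_insert_of_mem hi)) ?_
    obtain ⟨p, d, ρ, o, hp, hρ, ho, he⟩ := h j (Finset.mem_insert_self _ _)
    refine mem_of_update v _ j hp hρ ho (x := b j) (d := d) ?_ ?_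
    · rw [if_neg hj]
      exact he
    · have e : Function.update (fun i => if i ∈ T then b i else a i) j (b j) =
          fun i => if i ∈ insert j T then b i else a i := by
        funext i
        by_cases hi : i = j
        · subst hi
          rw [Function.update_self, if_pos (Finset.mem_insert_self _ _)]
        · rw [Function.update_of_ne hi]
          by_cases hiT : i ∈ T
          · rw [if_pos hiT, if_pos (Finset.mem_insert_of_mem hiT)]
          · rw [if_neg hiT, if_neg fun h => hiT (Finset.mem_of_mem_insert_of_ne h hi)]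
      convert hb using 2

end replace

section one

variable {K L : Type*} [Field K] [Field L]

theorem mon_one (z : Lˣ) (p : Fin 1 → ℤ) : mon (fun _ => z) p = z ^ p 0 := by
  unfold mon
  exact Fin.prod_univ_one _

theorem v_zpow (v : Valuation L ℤᵐ⁰) {z : Lˣ} {o : ℤ} (ho : v (z : L) = WithZero.exp o) (k : ℤ) :
    v ((z ^ k : Lˣ) : L) = WithZero.exp (o * k) := by
  rw [Units.val_zpow_eq_zpow_val, map_zpow₀, ho, ← WithZero.exp_zsmul, smul_eq_mul, mul_comm]

theorem lev_le_one (φ : K →+* L) (v : Valuation L ℤᵐ⁰) {W : LP K 1} (hW : Integral W) {z : Lˣ}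
    (hz : v (z : L) = 1) : v (lev φ (fun _ => z) W) ≤ 1 := by
  rw [lev_eq]
  refine Valuation.map_sum_le v fun m _ => ?_
  have ho : v (z : L) = WithZero.exp 0 := by rw [hz, WithZero.exp_zero]
  rw [map_mul, mon_one, v_zpow v ho, zero_mul, WithZero.exp_zero, mul_one]
  exact val_le_one_of_integral v (map_isIntegral_int φ (hW m))

theorem lev_lead (φ : K →+* L) (v : Valuation L ℤᵐ⁰) {W : LP K 1} (hW : Integral W)
    (hWi : Interior W) (hWe : UnitEnds W) {z : Lˣ} (hz : v (z : L) ≠ 1) :
    ∃ (p : ℤ) (ρ : Lˣ), p ≠ 0 ∧ (∃ k : ℕ, k ≠ 0 ∧ ρ ^ k = 1) ∧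
      1 < v (lev φ (fun _ => z) W) ∧
      v (((ρ * z ^ p : Lˣ) : L) - lev φ (fun _ => z) W) < v (lev φ (fun _ => z) W) := by
  classical
  obtain ⟨o, ho⟩ := exists_ord v z
  have ho0 : o ≠ 0 := by
    rintro rfl
    exact hz (by rw [ho, WithZero.exp_zero])
  obtain ⟨m1, hm1, hm1'⟩ := hWi (fun _ => o) (fun h => ho0 (congrFun h 0))
  rw [Fin.sum_univ_one] at hm1'
  obtain ⟨m0, hm0, hmax⟩ := Finset.exists_max_image W.coeff.support (fun m => o * m 0)
    ⟨m1, Finsupp.mem_support_iff.2 hm1⟩
  have hpos : 0 < o * m0 0 := hm1'.trans_le (hmax m1 (Finsupp.mem_support_iff.2 hm1))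
  have hp0 : m0 0 ≠ 0 := by
    intro h
    rw [h, mul_zero] at hpos
    exact lt_irrefl _ hpos
  have hc0 : W.coeff m0 ≠ 0 := Finsupp.mem_support_iff.1 hm0
  have hroot : ∃ k : ℕ, k ≠ 0 ∧ W.coeff m0 ^ k = 1 := by
    refine hWe m0 hc0 ?_
    rcases lt_or_gt_of_ne ho0 with h | h
    · right
      intro q hq
      have := hmax q (Finsupp.mem_support_iff.2 hq)
      nlinarith
    · left
      intro q hq
      have := hmax q (Finsupp.mem_support_iff.2 hq)
      nlinarith
  obtain ⟨k, hk, hk1⟩ := hroot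
  have hφ0 : φ (W.coeff m0) ≠ 0 := (map_ne_zero φ).2 hc0
  set ρ : Lˣ := Units.mk0 (φ (W.coeff m0)) hφ0 with hρ
  have hρk : ρ ^ k = 1 := by
    apply Units.ext
    rw [Units.val_pow_eq_pow_val, hρ, Units.val_mk0, ← map_pow, hk1, map_one, Units.val_one]
  have hvρ : v (ρ : L) = 1 := val_root v hk (by
    rw [← Units.val_pow_eq_pow_val, hρk, Units.val_one])
  have hval : v ((ρ * z ^ m0 0 : Lˣ) : L) = WithZero.exp (o * m0 0) := by
    rw [Units.val_mul, map_mul, hvρ, one_mul, v_zpow v ho]
  have hdiff : v (((ρ * z ^ m0 0 : Lˣ) : L) - lev φ (fun _ => z) W) <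
      WithZero.exp (o * m0 0) := by
    have e1 : lev φ (fun _ => z) W = φ (W.coeff m0) * ((mon (fun _ => z) m0 : Lˣ) : L) +
        ∑ m ∈ W.coeff.support.erase m0, φ (W.coeff m) * ((mon (fun _ => z) m : Lˣ) : L) := by
      rw [lev_eq, ← Finset.add_sum_erase _ _ hm0]
    have e2 : ((ρ * z ^ m0 0 : Lˣ) : L) = φ (W.coeff m0) * ((mon (fun _ => z) m0 : Lˣ) : L) := by
      rw [Units.val_mul, mon_one]
      rfl
    rw [e1, e2, sub_add_cancel_left, Valuation.map_neg]
    refine Valuation.map_sum_lt v (by exact WithZero.exp_ne_zero) fun m hm => ?_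
    obtain ⟨hmne, hms⟩ := Finset.mem_erase.1 hm
    rw [map_mul, mon_one, v_zpow v ho]
    have h1 : o * m 0 < o * m0 0 := by
      refine lt_of_le_of_ne (hmax m hms) fun h => hmne ?_
      funext i
      rw [Fin.eq_zero i]
      exact mul_left_cancel₀ ho0 h
    calc v (φ (W.coeff m)) * WithZero.exp (o * m 0) ≤ 1 * WithZero.exp (o * m 0) :=
          mul_le_mul' (val_le_one_of_integral v (map_isIntegral_int φ (hW m))) le_rfl
      _ < WithZero.exp (o * m0 0) := by rw [one_mul]; exact WithZero.exp_lt_exp.2 h1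
  have hHv : v (lev φ (fun _ => z) W) = WithZero.exp (o * m0 0) := by
    have hd' : v (((ρ * z ^ m0 0 : Lˣ) : L) - lev φ (fun _ => z) W) <
        v ((ρ * z ^ m0 0 : Lˣ) : L) := by
      rw [hval]
      exact hdiff
    have h2 := Valuation.map_sub_eq_of_lt_left v hd'
    rw [sub_sub_cancel, hval] at h2
    exact h2
  refine ⟨m0 0, ρ, hp0, ⟨k, hk, hρk⟩, ?_, ?_⟩
  · rw [hHv, ← WithZero.exp_zero]
    exact WithZero.exp_lt_exp.2 hpos
  · rw [hHv]
    exact hdiff

theorem poly_le_one (φ : K →+* L) (v : Valuation L ℤᵐ⁰) {F : Polynomial K}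
    (hF : ∀ i, IsIntegral ℤ (F.coeff i)) {lam : K} (hlam : IsIntegral ℤ lam) {G : L}
    (hy : v (φ lam * G) ≤ 1) : v (φ lam ^ F.natDegree * F.eval₂ φ G) ≤ 1 := by
  rw [Polynomial.eval₂_eq_sum_range, Finset.mul_sum]
  refine Valuation.map_sum_le v fun i hi => ?_
  have h1 : φ lam ^ F.natDegree * (φ (F.coeff i) * G ^ i) =
      φ (F.coeff i) * φ lam ^ (F.natDegree - i) * (φ lam * G) ^ i := by
    have h2 : i ≤ F.natDegree := by
      have := Finset.mem_range.1 hi
      omega
    obtain ⟨k, hk⟩ := Nat.exists_eq_add_of_le h2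
    rw [hk, Nat.add_sub_cancel_left, mul_pow, pow_add]
    ring
  rw [h1, map_mul, map_mul, map_pow, map_pow]
  exact mul_le_one' (mul_le_one' (val_le_one_of_integral v (map_isIntegral_int φ (hF i)))
    (pow_le_one' (val_le_one_of_integral v (map_isIntegral_int φ hlam)) _)) (pow_le_one' hy _)

theorem poly_lead (φ : K →+* L) (v : Valuation L ℤᵐ⁰) {F : Polynomial K} (hm : F.Monic)
    (hd : 0 < F.natDegree)
    (hF : ∀ i, IsIntegral ℤ (F.coeff i)) {lam : K} (hlam : IsIntegral ℤ lam) {G : L}
    (hy : 1 < v (φ lam * G)) :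
    v (φ lam ^ F.natDegree * F.eval₂ φ G - (φ lam * G) ^ F.natDegree) <
      v (φ lam * G) ^ F.natDegree := by
  rw [Polynomial.eval₂_eq_sum_range, Finset.sum_range_succ, hm.coeff_natDegree, map_one, one_mul,
    mul_add, ← mul_pow, add_sub_cancel_right, Finset.mul_sum]
  have hy0 : v (φ lam * G) ≠ 0 := (zero_lt_one.trans hy).ne'
  refine Valuation.map_sum_lt v (pow_ne_zero _ hy0) fun i hi => ?_
  have hid : i < F.natDegree := Finset.mem_range.1 hi
  have h1 : φ lam ^ F.natDegree * (φ (F.coeff i) * G ^ i) =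
      φ (F.coeff i) * φ lam ^ (F.natDegree - i) * (φ lam * G) ^ i := by
    obtain ⟨k, hk⟩ := Nat.exists_eq_add_of_le hid.le
    rw [hk, Nat.add_sub_cancel_left, mul_pow, pow_add]
    ring
  rw [h1, map_mul, map_mul, map_pow, map_pow]
  calc v (φ (F.coeff i)) * v (φ lam) ^ (F.natDegree - i) * v (φ lam * G) ^ i
      ≤ 1 * v (φ lam * G) ^ i := mul_le_mul' (mul_le_one'
        (val_le_one_of_integral v (map_isIntegral_int φ (hF i)))
        (pow_le_one' (val_le_one_of_integral v (map_isIntegral_int φ hlam)) _)) le_rfl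
    _ = v (φ lam * G) ^ i := one_mul _
    _ < v (φ lam * G) ^ F.natDegree := pow_lt_pow_right₀ hy hid

end one

section circuit

variable {L : Type*} [Field L] {n : ℕ}

/-- The symbol with the entries `y_i` at the places with `v y_i > 1`. -/
theorem mem_of_relation (v : Valuation L ℤᵐ⁰) (a : Fin (n + 1) → Lˣ) (y : Fin (n + 1) → L)
    (c : Fin (n + 1) → Lˣ) (hc : ∀ i, ∃ k : ℕ, k ≠ 0 ∧ c i ^ k = 1)
    (hrel : ∑ i, (c i : L) * y i = 0) (ha : ∀ i, 1 < v (y i) → (a i : L) = y i)
    (hex : ∃ i, 1 < v (y i)) : symb a ∈ unitPart v (n + 1) := by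
  classical
  have hvc : ∀ i, v (c i : L) = 1 := by
    intro i
    obtain ⟨k, hk, hk1⟩ := hc i
    exact val_root v hk (by rw [← Units.val_pow_eq_pow_val, hk1, Units.val_one])
  obtain ⟨i0, hi0⟩ := Finite.exists_max fun i => v (y i)
  obtain ⟨i1, hi1⟩ := hex
  have hbig : 1 < v (y i0) := hi1.trans_le (hi0 i1)
  have hvpos : 0 < v (y i0) := zero_lt_one.trans hbig
  have hai0 := ha i0 hbig
  set T : Type := {i : Fin (n + 1) // 1 < v (y i) ∧ i ≠ i0} with hT
  set q : T → Fin (n + 1) → ℤ := fun i => Pi.single i.1 1 - Pi.single i0 1 with hq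
  have hlin : LinearIndependent ℤ q := by
    rw [Fintype.linearIndependent_iff]
    intro g hg j
    have h1 := congrFun hg j.1
    rw [Finset.sum_apply, Pi.zero_apply, Finset.sum_eq_single j] at h1
    · rw [Pi.smul_apply, hq, smul_eq_mul] at h1
      simpa [Pi.single_apply, j.2.2] using h1
    · intro i _ hij
      rw [Pi.smul_apply, hq, smul_eq_mul]
      have h2 : j.1 ≠ i.1 := fun h => hij (Subtype.ext h.symm)
      simp [Pi.single_apply, j.2.2, h2]
    · intro h
      exact absurd (Finset.mem_univ j) h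
  have hmon : ∀ i : T, mon (fun j => a (id j)) (q i) = a i.1 / a i0 := by
    intro i
    rw [hq, mon_sub, mon_single, mon_single]
    rfl
  have hval : ∀ i : T, ((c i.1 / c i0 * mon (fun j => a (id j)) (q i) : Lˣ) : L) =
      ((c i.1 : L) * y i.1) / ((c i0 : L) * y i0) := by
    intro i
    rw [hmon, Units.val_mul, Units.val_div_eq_div_val, Units.val_div_eq_div_val, ha i.1 i.2.1,
      hai0, div_mul_div_comm]
  refine mem_unitPart_of_indep v a (p := id) Function.injective_id q hlin
    (fun i => c i.1 / c i0) (fun i => ?_) (fun i => ?_) ?_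
  · obtain ⟨k1, hk1, hk1'⟩ := hc i.1
    obtain ⟨k2, hk2, hk2'⟩ := hc i0
    refine ⟨k1 * k2, mul_ne_zero hk1 hk2, ?_⟩
    rw [div_pow, pow_mul, hk1', one_pow, mul_comm k1 k2, pow_mul, hk2', one_pow, div_one]
  · rw [hval, map_div₀, map_mul, map_mul, hvc, hvc, one_mul, one_mul, div_le_one₀ hvpos]
    exact hi0 i.1
  · have hsum : (1 : L) + ∑ i : T, ((c i.1 / c i0 * mon (fun j => a (id j)) (q i) : Lˣ) : L) =
        -(∑ i : {i : Fin (n + 1) // ¬ 1 < v (y i)}, (c i.1 : L) * y i.1) /
          ((c i0 : L) * y i0) := by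
      have hne : (c i0 : L) * y i0 ≠ 0 :=
        mul_ne_zero (c i0).ne_zero ((Valuation.ne_zero_iff v).1 hvpos.ne')
      simp only [hval]
      rw [← Finset.sum_div, eq_div_iff hne, add_mul, one_mul, div_mul_cancel₀ _ hne]
      have h1 := Fintype.sum_subtype_add_sum_subtype (fun i => 1 < v (y i))
        (fun i => (c i : L) * y i)
      have h2 : ∑ i : {i : Fin (n + 1) // 1 < v (y i)}, (c i.1 : L) * y i.1 =
          (c i0 : L) * y i0 + ∑ i : T, (c i.1 : L) * y i.1 := by
        have h3 : ∀ (P : Fin (n + 1) → Prop) [DecidablePred P],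
            ∑ i : {i // P i}, (c i.1 : L) * y i.1 =
              ∑ i ∈ Finset.univ.filter P, (c i : L) * y i := by
          intro P _
          rw [← Finset.sum_subtype_eq_sum_filter]
          simp
        rw [h3, h3]
        rw [← Finset.add_sum_erase (Finset.univ.filter fun i => 1 < v (y i)) _
          (Finset.mem_filter.2 ⟨Finset.mem_univ i0, hbig⟩)]
        congr 1
        refine Finset.sum_congr ?_ fun _ _ => rfl
        ext i
        simp [and_comm]
      rw [hrel] at h1
      rw [h2] at h1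
      linear_combination h1
    rw [hsum, map_div₀, Valuation.map_neg, map_mul, hvc, one_mul, div_lt_one₀ hvpos]
    refine lt_of_le_of_lt (Valuation.map_sum_le v fun i _ => ?_) hbig
    rw [map_mul, hvc, one_mul]
    exact not_lt.1 i.2

end circuit

section main

variable {K A : Type*} [Field K] [CommRing A] {m n : ℕ}

theorem sym_unramified {C : Cov K A m} {ι : K →+* A} (hC : C.Admissible ι) {lam : K}
    (hlam : IsIntegral ℤ lam) {D : Fin (n + 1) → Fin m} (hD : Circuit C ι D) {L : Type*} [Field L]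
    (f : XR C ι lam →+* L) : KQ.map (n + 1) f (sym C ι lam D) ∈ Unramified L (n + 1) := by
  classical
  unfold Unramified
  simp only [Submodule.mem_iInf]
  intro v _
  unfold sym
  rw [KQ.map_symb]
  obtain ⟨-, c, hc, hrel⟩ := hD
  set φ : A →+* L := f.comp (xbase C ι lam) with hφ
  set κ : K →+* L := φ.comp ι with hκ
  set z : Fin m → Lˣ := fun e => Units.map (f : XR C ι lam →* L) (xz C ι lam e) with hz
  have heqn : ∀ e, lev κ (fun _ => z e) (C.W e) =
      κ lam ^ (C.F e).natDegree * (C.F e).eval₂ κ (φ (C.g e)) := by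
    intro e
    have h1 : lev κ (fun _ => z e) (C.W e) = φ (C.rhs ι lam e) :=
      eqn_hom (W := C.W) (h := C.rhs ι lam) f e
    rw [h1]
    unfold Cov.rhs
    rw [map_mul, map_pow, hC.val e, Polynomial.hom_eval₂]
    rfl
  set y : Fin (n + 1) → L := fun i => κ lam * φ (C.g (D i)) with hy
  have hsmall : ∀ i, ¬ 1 < v (y i) → v (z (D i) : L) = 1 := by
    intro i hi
    by_contra hne
    obtain ⟨p, ρ, -, -, h1, -⟩ := lev_lead κ v (hC.integralW (D i)) (hC.interior (D i))
      (hC.ends (D i)) hne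
    rw [heqn] at h1
    exact absurd (poly_le_one κ v (hC.integral (D i)) hlam (not_lt.1 hi)) (not_le.2 h1)
  by_cases hex : ∃ i, 1 < v (y i)
  · set b : Fin (n + 1) → Lˣ := fun i => if h : 1 < v (y i) then
      Units.mk0 (y i) ((Valuation.ne_zero_iff v).1 (zero_lt_one.trans h).ne') else 1 with hb
    have hbv : ∀ i, 1 < v (y i) → (b i : L) = y i := by
      intro i hi
      simp only [hb]
      rw [dif_pos hi]
      rfl
    have hc0 : ∀ i, κ (c i) ≠ 0 := by
      intro i
      obtain ⟨k, hk, hk1⟩ := hc i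
      rw [map_ne_zero]
      rintro h0
      rw [h0, zero_pow hk] at hk1
      exact zero_ne_one hk1
    refine mem_of_replace v _ b (Finset.univ.filter fun i => 1 < v (y i)) (fun i hi => ?_) ?_
    · have hi' : 1 < v (y i) := (Finset.mem_filter.1 hi).2
      have hH := poly_lead κ v (hC.monic (D i)) (hC.pos (D i)) (hC.integral (D i)) hlam hi'
      rw [← heqn] at hH
      have hvH : v (lev κ (fun _ => z (D i)) (C.W (D i))) = v (y i) ^ (C.F (D i)).natDegree := by
        have h1 := Valuation.map_add_eq_of_lt_right v (x := lev κ (fun _ => z (D i)) (C.W (D i)) -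
          y i ^ (C.F (D i)).natDegree) (y := y i ^ (C.F (D i)).natDegree) (by
            rw [map_pow]
            exact hH)
        rw [sub_add_cancel, map_pow] at h1
        exact h1
      have hzne : v (z (D i) : L) ≠ 1 := by
        intro h1
        have h2 := lev_le_one κ v (hC.integralW (D i)) h1
        rw [hvH] at h2
        exact absurd h2 (not_le.2 (one_lt_pow₀ hi' (hC.pos (D i)).ne'))
      obtain ⟨p, ρ, hp, hρ, h1, h2⟩ := lev_lead κ v (hC.integralW (D i)) (hC.interior (D i))
        (hC.ends (D i)) hzne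
      refine ⟨p, (C.F (D i)).natDegree, ρ,
        ρ * z (D i) ^ p / b i ^ ((C.F (D i)).natDegree : ℤ), hp, hρ, ?_, ?_⟩
      · have hy0 : y i ^ (C.F (D i)).natDegree ≠ 0 :=
          pow_ne_zero _ ((Valuation.ne_zero_iff v).1 (zero_lt_one.trans hi').ne')
        have e1 : ((ρ * z (D i) ^ p / b i ^ ((C.F (D i)).natDegree : ℤ) : Lˣ) : L) - 1 =
            (((ρ * z (D i) ^ p : Lˣ) : L) - y i ^ (C.F (D i)).natDegree) /
              y i ^ (C.F (D i)).natDegree := by
          rw [Units.val_div_eq_div_val, zpow_natCast, Units.val_pow_eq_pow_val, hbv i hi',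
            sub_div, div_self hy0]
        rw [e1, map_div₀, map_pow, div_lt_one₀ (pow_pos (zero_lt_one.trans hi') _)]
        have e2 : ((ρ * z (D i) ^ p : Lˣ) : L) - y i ^ (C.F (D i)).natDegree =
            (((ρ * z (D i) ^ p : Lˣ) : L) - lev κ (fun _ => z (D i)) (C.W (D i))) +
              (lev κ (fun _ => z (D i)) (C.W (D i)) - y i ^ (C.F (D i)).natDegree) := by ring
        rw [e2]
        refine Valuation.map_add_lt v ?_ hH
        rw [← hvH]
        exact h2
      · exact (mul_div_cancel _ _).symm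
    · refine mem_of_relation v _ y (fun i => Units.mk0 (κ (c i)) (hc0 i)) (fun i => ?_) ?_
        (fun i hi => ?_) hex
      · obtain ⟨k, hk, hk1⟩ := hc i
        refine ⟨k, hk, ?_⟩
        apply Units.ext
        rw [Units.val_pow_eq_pow_val, Units.val_mk0, ← map_pow, hk1, map_one, Units.val_one]
      · have h1 := congrArg φ hrel
        rw [map_sum, map_zero] at h1
        have h2 : ∑ i, ((Units.mk0 (κ (c i)) (hc0 i) : Lˣ) : L) * y i =
            κ lam * ∑ i, φ (ι (c i) * C.g (D i)) := by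
          rw [Finset.mul_sum]
          refine Finset.sum_congr rfl fun i _ => ?_
          rw [Units.val_mk0, map_mul]
          simp only [hy]
          have h3 : κ (c i) = φ (ι (c i)) := rfl
          rw [h3]
          ring
        rw [h2, h1, mul_zero]
      · rw [if_pos (Finset.mem_filter.2 ⟨Finset.mem_univ i, hi⟩)]
        exact hbv i hi
  · push Not at hex
    exact Submodule.subset_span ⟨_, fun i => hsmall i (not_lt.2 (hex i)), rfl⟩

end main

end Pool.Agent.L7h9.CP
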